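import Pool.Agent.K3h58.MOID.Geom

/-!
# At most ten stationary points of the distance between a circle and a confocal ellipse

The definitions `ellipse` and `stationary` are in `Pool/Agent/K3h58/MOID/Defs.lean`.
-/

set_option autoImplicit false

namespace Pool.Agent.Results.MP_4e5648_mp.CircleEllipseTen

open Pool.Agent.K3h58.MOID

/-- **A circle and a non-circular ellipse in three-space, the centre of the circle being a focus of
the ellipse: the squared distance has at most ten stationary points.** -/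
theorem result (F u₁ v₁ u₂ v₂ : EuclideanSpace ℝ (Fin 3)) (R a e : ℝ)
    (hR : 0 < R) (ha : 0 < a) (he0 : 0 < e) (he1 : e < 1)
    (hu₁ : ‖u₁‖ = 1) (hv₁ : ‖v₁‖ = 1) (huv₁ : inner ℝ u₁ v₁ = 0)
    (hu₂ : ‖u₂‖ = 1) (hv₂ : ‖v₂‖ = 1) (huv₂ : inner ℝ u₂ v₂ = 0) :
    (stationary (ellipse F u₁ v₁ R 0) (ellipse F u₂ v₂ a e)).Finite ∧
      (stationary (ellipse F u₁ v₁ R 0) (ellipse F u₂ v₂ a e)).ncard ≤ 10 := by
  have h := stationary_circle_ellipse (F := F) hR ha he0 he1 hu₁ hv₁ huv₁ hu₂ hv₂ huv₂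
  have hfin : (stationary (ellipse F u₁ v₁ R 0) (ellipse F u₂ v₂ a e)).Finite := by
    apply Set.finite_of_encard_le_coe (k := 10)
    exact_mod_cast h
  refine ⟨hfin, ?_⟩
  rw [← hfin.cast_ncard_eq] at h
  exact_mod_cast h

end Pool.Agent.Results.MP_4e5648_mp.CircleEllipseTen
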